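import Mathlib

/-!
# Weighted sums over partitions
-/

namespace V11176.SN

open Finset

/-- the weight of a multiset -/
def wt (x : ℕ → ℝ) (s : Multiset ℕ) : ℝ := (s.map x).prod

/-- the sum of the weights of the partitions of `n` -/
noncomputable def W (x : ℕ → ℝ) (n : ℕ) : ℝ := ∑ p : n.Partition, wt x p.parts

theorem wt_nonneg {x : ℕ → ℝ} (hx : ∀ k, 0 ≤ x k) (s : Multiset ℕ) : 0 ≤ wt x s := by
  apply Multiset.prod_nonneg
  intro a ha
  rw [Multiset.mem_map] at ha
  obtain ⟨k, _, rfl⟩ := ha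
  exact hx k

theorem W_nonneg {x : ℕ → ℝ} (hx : ∀ k, 0 ≤ x k) (n : ℕ) : 0 ≤ W x n :=
  Finset.sum_nonneg fun _ _ => wt_nonneg hx _

theorem W_zero (x : ℕ → ℝ) : W x 0 = 1 := by
  rw [W, Fintype.sum_unique]
  have : (default : Nat.Partition 0).parts = 0 := by
    rw [Multiset.eq_zero_iff_forall_notMem]
    intro a ha
    have h1 := (default : Nat.Partition 0).parts_sum
    have h2 := (default : Nat.Partition 0).parts_pos ha
    have h3 := Multiset.single_le_sum (fun _ _ => Nat.zero_le _) a ha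
    omega
  rw [this, wt]
  simp

/-- add `j` copies of the part `k` -/
def addK {n k j : ℕ} (hk : 0 < k) (h : k * j ≤ n) (p : (n - k * j).Partition) : n.Partition where
  parts := p.parts + Multiset.replicate j k
  parts_pos := by
    intro i hi
    rw [Multiset.mem_add] at hi
    rcases hi with hi | hi
    · exact p.parts_pos hi
    · rw [Multiset.eq_of_mem_replicate hi]
      exact hk
  parts_sum := by
    rw [Multiset.sum_add, p.parts_sum, Multiset.sum_replicate, smul_eq_mul, mul_comm j k]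
    omega

theorem sum_count_ge (x : ℕ → ℝ) {n k j : ℕ} (hk : 0 < k) (h : k * j ≤ n) :
    ∑ p ∈ (Finset.univ : Finset n.Partition).filter (fun p => j ≤ p.parts.count k), wt x p.parts =
      x k ^ j * W x (n - k * j) := by
  rw [W, Finset.mul_sum]
  symm
  refine Finset.sum_bij (fun p _ => addK hk h p) ?_ ?_ ?_ ?_
  · intro p _
    rw [Finset.mem_filter]
    refine ⟨Finset.mem_univ _, ?_⟩
    simp only [addK, Multiset.count_add, Multiset.count_replicate_self]
    omega
  · intro p _ q _ hpq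
    have h1 := congrArg Nat.Partition.parts hpq
    simp only [addK] at h1
    exact Nat.Partition.ext (add_right_cancel h1)
  · intro q hq
    have hq' := (Finset.mem_filter.1 hq).2
    have hle : Multiset.replicate j k ≤ q.parts := Multiset.le_count_iff_replicate_le.1 hq'
    have hadd : q.parts - Multiset.replicate j k + Multiset.replicate j k = q.parts :=
      tsub_add_cancel_of_le hle
    refine ⟨⟨q.parts - Multiset.replicate j k, ?_, ?_⟩, Finset.mem_univ _, ?_⟩
    · intro i hi
      exact q.parts_pos (Multiset.mem_of_le (Multiset.sub_le_self _ _) hi)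
    · have h1 := congrArg Multiset.sum hadd
      rw [Multiset.sum_add, q.parts_sum, Multiset.sum_replicate, smul_eq_mul] at h1
      rw [mul_comm k j]
      omega
    · apply Nat.Partition.ext
      exact hadd
  · intro p _
    simp only [wt, addK, Multiset.map_add, Multiset.prod_add, Multiset.map_replicate,
      Multiset.prod_replicate]
    ring

theorem sum_count_ge_zero (x : ℕ → ℝ) {n k j : ℕ} (h : n < k * j) :
    ∑ p ∈ (Finset.univ : Finset n.Partition).filter (fun p => j ≤ p.parts.count k), wt x p.parts =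
      0 := by
  rw [Finset.filter_eq_empty_iff.2, Finset.sum_empty]
  intro p _ hp
  have hle : Multiset.replicate j k ≤ p.parts := Multiset.le_count_iff_replicate_le.1 hp
  have h1 := congrArg Multiset.sum (tsub_add_cancel_of_le hle)
  rw [Multiset.sum_add, Multiset.sum_replicate, smul_eq_mul, p.parts_sum, mul_comm j k] at h1
  omega

/-- `n = ∑ k * count k` -/
theorem sum_count {n : ℕ} (p : n.Partition) :
    ∑ k ∈ Icc 1 n, k * p.parts.count k = n := by
  have h1 : p.parts.sum = n := p.parts_sum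
  rw [Finset.sum_multiset_count] at h1
  conv_rhs => rw [← h1]
  symm
  have h2 : ∑ m ∈ p.parts.toFinset, p.parts.count m • m =
      ∑ m ∈ Finset.Icc 1 n, p.parts.count m • m := by
    apply Finset.sum_subset
    · intro a ha
      rw [Multiset.mem_toFinset] at ha
      rw [Finset.mem_Icc]
      refine ⟨p.parts_pos ha, ?_⟩
      rw [← p.parts_sum]
      exact Multiset.single_le_sum (fun _ _ => Nat.zero_le _) a ha
    · intro a _ ha
      rw [Multiset.mem_toFinset] at ha
      rw [Multiset.count_eq_zero_of_notMem ha]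
      simp
  rw [h2]
  exact Finset.sum_congr rfl fun k _ => by rw [smul_eq_mul, mul_comm]

theorem count_le {n : ℕ} (p : n.Partition) {k : ℕ} (hk : k ∈ Icc 1 n) : p.parts.count k ≤ n := by
  have h1 := sum_count p
  have h2 : k * p.parts.count k ≤ ∑ k ∈ Icc 1 n, k * p.parts.count k :=
    Finset.single_le_sum (f := fun k => k * p.parts.count k) (fun _ _ => Nat.zero_le _) hk
  have h3 : p.parts.count k ≤ k * p.parts.count k :=
    Nat.le_mul_of_pos_left _ (Finset.mem_Icc.1 hk).1
  omega

theorem count_eq_sum {n : ℕ} (p : n.Partition) {k : ℕ} (hk : k ∈ Icc 1 n) :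
    (p.parts.count k : ℝ) = ∑ j ∈ Icc 1 n, if j ≤ p.parts.count k then (1 : ℝ) else 0 := by
  rw [← Finset.sum_filter, Finset.sum_const, nsmul_eq_mul, mul_one]
  have : (Icc 1 n).filter (fun j => j ≤ p.parts.count k) = Icc 1 (p.parts.count k) := by
    ext j
    rw [Finset.mem_filter, Finset.mem_Icc, Finset.mem_Icc]
    have := count_le p hk
    omega
  rw [this, Nat.card_Icc]
  simp

/-- the coefficients of the logarithmic derivative -/
noncomputable def b (x : ℕ → ℝ) (m : ℕ) : ℝ :=
  ∑ kj ∈ m.divisorsAntidiagonal, (kj.1 : ℝ) * x kj.1 ^ kj.2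

theorem b_nonneg {x : ℕ → ℝ} (hx : ∀ k, 0 ≤ x k) (m : ℕ) : 0 ≤ b x m :=
  Finset.sum_nonneg fun _ _ => mul_nonneg (Nat.cast_nonneg _) (pow_nonneg (hx _) _)

theorem regroup (n : ℕ) (g : ℕ → ℕ → ℝ) :
    ∑ k ∈ Icc 1 n, ∑ j ∈ Icc 1 n, (if k * j ≤ n then g k j else 0) =
      ∑ m ∈ Icc 1 n, ∑ kj ∈ m.divisorsAntidiagonal, g kj.1 kj.2 := by
  have h1 : ∀ m ∈ Icc 1 n, m.divisorsAntidiagonal =
      ((Icc 1 n) ×ˢ (Icc 1 n)).filter (fun kj => kj.1 * kj.2 = m) := by
    intro m hm
    rw [Finset.mem_Icc] at hm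
    ext ⟨k, j⟩
    rw [Nat.mem_divisorsAntidiagonal, Finset.mem_filter, Finset.mem_product, Finset.mem_Icc,
      Finset.mem_Icc]
    simp only
    constructor
    · rintro ⟨rfl, h0⟩
      have hk : 0 < k := Nat.pos_of_ne_zero (fun h => h0 (by rw [h, zero_mul]))
      have hj : 0 < j := Nat.pos_of_ne_zero (fun h => h0 (by rw [h, mul_zero]))
      have h2 : k ≤ k * j := Nat.le_mul_of_pos_right _ hj
      have h3 : j ≤ k * j := Nat.le_mul_of_pos_left _ hk
      exact ⟨⟨⟨hk, by omega⟩, ⟨hj, by omega⟩⟩, rfl⟩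
    · rintro ⟨_, h⟩
      exact ⟨h, by omega⟩
  have h2 : ∑ m ∈ Icc 1 n, ∑ kj ∈ m.divisorsAntidiagonal, g kj.1 kj.2 =
      ∑ m ∈ Icc 1 n, ∑ kj ∈ (Icc 1 n) ×ˢ (Icc 1 n),
        if kj.1 * kj.2 = m then g kj.1 kj.2 else 0 :=
    Finset.sum_congr rfl fun m hm => by rw [h1 m hm, Finset.sum_filter]
  rw [← Finset.sum_product' (f := fun k j => if k * j ≤ n then g k j else 0), h2, Finset.sum_comm]
  refine Finset.sum_congr rfl fun kj hkj => ?_
  rw [Finset.mem_product, Finset.mem_Icc, Finset.mem_Icc] at hkj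
  rw [Finset.sum_ite_eq]
  have h0 : 1 ≤ kj.1 * kj.2 := Nat.mul_pos hkj.1.1 hkj.2.1
  by_cases h : kj.1 * kj.2 ≤ n
  · rw [if_pos h, if_pos (Finset.mem_Icc.2 ⟨h0, h⟩)]
  · rw [if_neg h, if_neg (fun hh => h (Finset.mem_Icc.1 hh).2)]

/-- The recurrence `n W(n) = ∑ b(m) W(n-m)`. -/
theorem recurrence (x : ℕ → ℝ) (n : ℕ) :
    (n : ℝ) * W x n = ∑ m ∈ Icc 1 n, b x m * W x (n - m) := by
  have h1 : (n : ℝ) * W x n = ∑ p : n.Partition, ∑ k ∈ Icc 1 n, ∑ j ∈ Icc 1 n,
      (k : ℝ) * (if j ≤ p.parts.count k then wt x p.parts else 0) := by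
    rw [W, Finset.mul_sum]
    refine Finset.sum_congr rfl fun p _ => ?_
    have h2 : (n : ℝ) = ∑ k ∈ Icc 1 n, (k : ℝ) * p.parts.count k := by
      conv_lhs => rw [← sum_count p]
      push_cast
      rfl
    conv_lhs => rw [h2, Finset.sum_mul]
    refine Finset.sum_congr rfl fun k hk => ?_
    rw [count_eq_sum p hk, Finset.mul_sum, Finset.sum_mul]
    refine Finset.sum_congr rfl fun j _ => ?_
    split_ifs <;> ring
  rw [h1, Finset.sum_comm]
  have h3 : ∀ k ∈ Icc 1 n, ∑ p : n.Partition, ∑ j ∈ Icc 1 n,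
      (k : ℝ) * (if j ≤ p.parts.count k then wt x p.parts else 0) =
      ∑ j ∈ Icc 1 n, (if k * j ≤ n then (k : ℝ) * (x k ^ j * W x (n - k * j)) else 0) := by
    intro k hk
    rw [Finset.sum_comm]
    refine Finset.sum_congr rfl fun j _ => ?_
    rw [← Finset.mul_sum, ← Finset.sum_filter]
    split_ifs with h
    · rw [sum_count_ge x (Finset.mem_Icc.1 hk).1 h]
    · rw [sum_count_ge_zero x (by omega), mul_zero]
  rw [Finset.sum_congr rfl h3, regroup n (fun k j => (k : ℝ) * (x k ^ j * W x (n - k * j)))]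
  refine Finset.sum_congr rfl fun m hm => ?_
  rw [b, Finset.sum_mul]
  refine Finset.sum_congr rfl fun kj hkj => ?_
  rw [(Nat.mem_divisorsAntidiagonal.1 hkj).1]
  ring

/-- the weights truncated at `K` -/
noncomputable def tr (x : ℕ → ℝ) (K : ℕ) : ℕ → ℝ := fun k => if k ≤ K then x k else 0

theorem tr_nonneg {x : ℕ → ℝ} (hx : ∀ k, 0 ≤ x k) (K k : ℕ) : 0 ≤ tr x K k := by
  unfold tr
  split_ifs
  · exact hx k
  · exact le_refl _

theorem wt_congr {x y : ℕ → ℝ} {s : Multiset ℕ} (h : ∀ k ∈ s, x k = y k) : wt x s = wt y s := by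
  unfold wt
  rw [Multiset.map_congr rfl h]

theorem W_tr_of_le (x : ℕ → ℝ) {K n : ℕ} (h : n ≤ K) : W (tr x K) n = W x n := by
  refine Finset.sum_congr rfl fun p _ => wt_congr fun k hk => ?_
  have h1 : k ≤ n := by
    conv_rhs => rw [← p.parts_sum]
    exact Multiset.single_le_sum (fun _ _ => Nat.zero_le _) k hk
  rw [tr, if_pos (h1.trans h)]

theorem W_tr_zero (x : ℕ → ℝ) {n : ℕ} (h : 0 < n) : W (tr x 0) n = 0 := by
  refine Finset.sum_eq_zero fun p _ => ?_
  have hne : p.parts ≠ 0 := by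
    intro h0
    have := p.parts_sum
    rw [h0] at this
    simp at this
    omega
  obtain ⟨k, hk⟩ := Multiset.exists_mem_of_ne_zero hne
  unfold wt
  apply Multiset.prod_eq_zero
  rw [Multiset.mem_map]
  refine ⟨k, hk, ?_⟩
  have := p.parts_pos hk
  rw [tr, if_neg (by omega)]

theorem W_tr_succ (x : ℕ → ℝ) (K n : ℕ) :
    W (tr x (K + 1)) n = W (tr x K) n +
      (if K + 1 ≤ n then x (K + 1) * W (tr x (K + 1)) (n - (K + 1)) else 0) := by
  have h1 : W (tr x (K + 1)) n =
      ∑ p ∈ (Finset.univ : Finset n.Partition).filter (fun p => ¬ 1 ≤ p.parts.count (K + 1)),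
        wt (tr x (K + 1)) p.parts +
      ∑ p ∈ (Finset.univ : Finset n.Partition).filter (fun p => 1 ≤ p.parts.count (K + 1)),
        wt (tr x (K + 1)) p.parts := by
    exact (Finset.sum_filter_not_add_sum_filter _ _ _).symm
  have h2 : ∑ p ∈ (Finset.univ : Finset n.Partition).filter
      (fun p => ¬ 1 ≤ p.parts.count (K + 1)), wt (tr x (K + 1)) p.parts = W (tr x K) n := by
    have h4 : W (tr x K) n =
        ∑ p ∈ (Finset.univ : Finset n.Partition).filter (fun p => ¬ 1 ≤ p.parts.count (K + 1)),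
          wt (tr x K) p.parts +
        ∑ p ∈ (Finset.univ : Finset n.Partition).filter (fun p => 1 ≤ p.parts.count (K + 1)),
          wt (tr x K) p.parts := (Finset.sum_filter_not_add_sum_filter _ _ _).symm
    have h3 : ∑ p ∈ (Finset.univ : Finset n.Partition).filter
        (fun p => 1 ≤ p.parts.count (K + 1)), wt (tr x K) p.parts = 0 := by
      refine Finset.sum_eq_zero fun p hp => ?_
      have hp' := (Finset.mem_filter.1 hp).2
      unfold wt
      apply Multiset.prod_eq_zero
      rw [Multiset.mem_map]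
      refine ⟨K + 1, Multiset.count_pos.1 (by omega), ?_⟩
      rw [tr, if_neg (by omega)]
    rw [h4, h3, add_zero]
    refine Finset.sum_congr rfl fun p hp => wt_congr fun k hk => ?_
    have hp' := (Finset.mem_filter.1 hp).2
    have hkK : k ≠ K + 1 := by
      rintro rfl
      exact hp' (Multiset.count_pos.2 hk)
    unfold tr
    by_cases h : k ≤ K
    · rw [if_pos h, if_pos (by omega)]
    · rw [if_neg h, if_neg (by omega)]
  rw [h1, h2]
  congr 1
  split_ifs with h
  · rw [sum_count_ge _ (Nat.succ_pos K) (by omega), mul_one, pow_one]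
    congr 1
    rw [tr, if_pos (le_refl _)]
  · rw [sum_count_ge_zero _ (by omega)]

end V11176.SN
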