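import Pool.Agent.V11176.SN.Comb

/-!
# Cumulative sums of weighted partition sums
-/

namespace V11176.SN

open Finset Filter Topology

/-- cumulative sums for the weights truncated at `K` -/
noncomputable def CK (x : ℕ → ℝ) (K n : ℕ) : ℝ := ∑ m ∈ range (n + 1), W (tr x K) m

/-- the Euler product -/
noncomputable def PP (x : ℕ → ℝ) (K : ℕ) : ℝ := ∏ k ∈ Icc 1 K, (1 - x k)⁻¹

/-- the cumulative sums -/
noncomputable def CC (x : ℕ → ℝ) (n : ℕ) : ℝ := ∑ m ∈ range (n + 1), W x m

theorem shift_sum (f : ℕ → ℝ) (i N : ℕ) (h : i ≤ N) :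
    ∑ m ∈ range (N + 1), (if i ≤ m then f (m - i) else 0) = ∑ j ∈ range (N - i + 1), f j := by
  have e : N + 1 = i + (N - i + 1) := by omega
  rw [e, Finset.sum_range_add, Finset.sum_eq_zero, zero_add]
  · refine Finset.sum_congr rfl fun j _ => ?_
    rw [if_pos (by omega), Nat.add_sub_cancel_left]
  · intro m hm
    rw [if_neg]
    have := Finset.mem_range.1 hm
    omega

theorem shift_sum_zero (f : ℕ → ℝ) (i N : ℕ) (h : N < i) :
    ∑ m ∈ range (N + 1), (if i ≤ m then f (m - i) else 0) = 0 := by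
  refine Finset.sum_eq_zero fun m hm => ?_
  rw [if_neg]
  have := Finset.mem_range.1 hm
  omega

section
variable {x : ℕ → ℝ} (hx0 : ∀ k, 0 ≤ x k) (hx1 : ∀ k, x k ≤ 1 / 2)

include hx0 in
theorem CK_mono (K : ℕ) : Monotone (CK x K) := by
  intro n m hnm
  exact Finset.sum_le_sum_of_subset_of_nonneg (Finset.range_mono (by omega))
    fun _ _ _ => W_nonneg (tr_nonneg hx0 K) _

include hx0 in
theorem CK_nonneg (K n : ℕ) : 0 ≤ CK x K n :=
  Finset.sum_nonneg fun _ _ => W_nonneg (tr_nonneg hx0 K) _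

theorem CK_zero (n : ℕ) : CK x 0 n = 1 := by
  rw [CK, Finset.sum_range_succ', W_zero, Finset.sum_eq_zero, zero_add]
  intro m _
  exact W_tr_zero x (Nat.succ_pos m)

theorem CK_succ (K n : ℕ) : CK x (K + 1) n = CK x K n +
    (if K + 1 ≤ n then x (K + 1) * CK x (K + 1) (n - (K + 1)) else 0) := by
  have h1 : CK x (K + 1) n = CK x K n + ∑ m ∈ range (n + 1), (if K + 1 ≤ m then
      x (K + 1) * W (tr x (K + 1)) (m - (K + 1)) else 0) := by
    rw [CK, CK, ← Finset.sum_add_distrib]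
    exact Finset.sum_congr rfl fun m _ => W_tr_succ x K m
  rw [h1]
  congr 1
  split_ifs with h
  · rw [shift_sum (fun m => x (K + 1) * W (tr x (K + 1)) m) (K + 1) n h, ← Finset.mul_sum]
    rfl
  · rw [shift_sum_zero (fun m => x (K + 1) * W (tr x (K + 1)) m) (K + 1) n (by omega)]

include hx0 hx1 in
theorem CK_le (K n : ℕ) : CK x K n ≤ PP x K := by
  induction K with
  | zero => rw [CK_zero, PP]; simp
  | succ K ih =>
    have h1 : CK x (K + 1) n ≤ CK x K n + x (K + 1) * CK x (K + 1) n := by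
      conv_lhs => rw [CK_succ]
      gcongr
      split_ifs with h
      · exact mul_le_mul_of_nonneg_left (CK_mono hx0 _ (Nat.sub_le _ _)) (hx0 _)
      · exact mul_nonneg (hx0 _) (CK_nonneg hx0 _ _)
    have h2 : 0 < 1 - x (K + 1) := by have := hx1 (K + 1); linarith
    rw [PP, Finset.prod_Icc_succ_top (by omega), ← PP, ← div_eq_mul_inv, le_div_iff₀ h2]
    linarith

include hx1 in
theorem PP_pos (K : ℕ) : 0 < PP x K := by
  refine Finset.prod_pos fun k _ => ?_
  have := hx1 k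
  have : 0 < 1 - x k := by linarith
  positivity

include hx0 hx1 in
theorem CK_tendsto (K : ℕ) : Tendsto (CK x K) atTop (𝓝 (PP x K)) := by
  induction K with
  | zero =>
    have : CK x 0 = fun _ => 1 := funext fun n => CK_zero n
    rw [this, PP]
    simp
  | succ K ih =>
    have hbdd : BddAbove (Set.range (CK x (K + 1))) :=
      ⟨PP x (K + 1), by rintro _ ⟨n, rfl⟩; exact CK_le hx0 hx1 _ _⟩
    have hL := tendsto_atTop_ciSup (CK_mono hx0 (K + 1)) hbdd
    set L := ⨆ n, CK x (K + 1) n with hLdef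
    have h2 : Tendsto (fun n => CK x K n + x (K + 1) * CK x (K + 1) (n - (K + 1))) atTop
        (𝓝 (PP x K + x (K + 1) * L)) :=
      ih.add ((hL.comp (tendsto_sub_atTop_nat (K + 1))).const_mul _)
    have h3 : Tendsto (CK x (K + 1)) atTop (𝓝 (PP x K + x (K + 1) * L)) := by
      refine h2.congr' ?_
      filter_upwards [eventually_ge_atTop (K + 1)] with n hn
      rw [CK_succ K n, if_pos hn]
    have h4 := tendsto_nhds_unique hL h3
    have h5 : 0 < 1 - x (K + 1) := by have := hx1 (K + 1); linarith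
    have h6 : L = PP x (K + 1) := by
      rw [PP, Finset.prod_Icc_succ_top (by omega), ← PP, ← div_eq_mul_inv, eq_div_iff h5.ne']
      linarith
    rw [← h6]
    exact hL

theorem geom_le {y : ℝ} (h0 : 0 ≤ y) (h1 : y ≤ 1 / 2) (N : ℕ) :
    ∑ j ∈ Icc 1 N, y ^ j ≤ 2 * y := by
  have h : ∀ N : ℕ, ∑ j ∈ Icc 1 N, y ^ j ≤ 2 * y - 2 * y ^ (N + 1) := by
    intro N
    induction N with
    | zero => simp
    | succ N ih =>
      rw [Finset.sum_Icc_succ_top (by omega)]
      have h3 : 0 ≤ y ^ (N + 1) := pow_nonneg h0 _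
      rw [pow_succ y (N + 1)]
      nlinarith
  have h2 := h N
  have := pow_nonneg h0 (N + 1)
  linarith

include hx0 hx1 in
theorem sum_b_le (K N : ℕ) :
    ∑ i ∈ Icc 1 N, b (tr x K) i ≤ 2 * ∑ k ∈ Icc 1 K, (k : ℝ) * x k := by
  have h1 := regroup N (fun (k j : ℕ) => (k : ℝ) * tr x K k ^ j)
  have h2 : ∑ i ∈ Icc 1 N, b (tr x K) i = ∑ m ∈ Icc 1 N, ∑ kj ∈ m.divisorsAntidiagonal,
      (fun (k j : ℕ) => (k : ℝ) * tr x K k ^ j) kj.1 kj.2 := rfl
  rw [h2, ← h1]
  have hy0 : ∀ k, 0 ≤ tr x K k := tr_nonneg hx0 K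
  have hy1 : ∀ k, tr x K k ≤ 1 / 2 := by
    intro k
    unfold tr
    split_ifs
    · exact hx1 k
    · norm_num
  calc ∑ k ∈ Icc 1 N, ∑ j ∈ Icc 1 N, (if k * j ≤ N then (k : ℝ) * tr x K k ^ j else 0)
      ≤ ∑ k ∈ Icc 1 N, (k : ℝ) * (2 * tr x K k) := by
        refine Finset.sum_le_sum fun k _ => ?_
        refine le_trans ?_ (mul_le_mul_of_nonneg_left (geom_le (hy0 k) (hy1 k) N)
          (Nat.cast_nonneg k))
        rw [Finset.mul_sum]
        refine Finset.sum_le_sum fun j _ => ?_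
        split_ifs
        · exact le_refl _
        · exact mul_nonneg (Nat.cast_nonneg _) (pow_nonneg (hy0 k) _)
    _ = 2 * ∑ k ∈ Icc 1 N, (k : ℝ) * tr x K k := by
        rw [Finset.mul_sum]
        exact Finset.sum_congr rfl fun k _ => by ring
    _ ≤ 2 * ∑ k ∈ Icc 1 K, (k : ℝ) * x k := by
        apply mul_le_mul_of_nonneg_left _ (by norm_num)
        calc ∑ k ∈ Icc 1 N, (k : ℝ) * tr x K k
            ≤ ∑ k ∈ Icc 1 N ∪ Icc 1 K, (k : ℝ) * tr x K k :=
              Finset.sum_le_sum_of_subset_of_nonneg Finset.subset_union_left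
                fun k _ _ => mul_nonneg (Nat.cast_nonneg _) (hy0 k)
          _ = ∑ k ∈ Icc 1 K, (k : ℝ) * tr x K k := by
              symm
              apply Finset.sum_subset Finset.subset_union_right
              intro k hk hk'
              rw [Finset.mem_union, Finset.mem_Icc, Finset.mem_Icc] at hk
              rw [Finset.mem_Icc] at hk'
              rw [tr, if_neg (by omega), mul_zero]
          _ = ∑ k ∈ Icc 1 K, (k : ℝ) * x k := by
              refine Finset.sum_congr rfl fun k hk => ?_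
              rw [tr, if_pos (Finset.mem_Icc.1 hk).2]

include hx0 hx1 in
theorem moment_le (K N : ℕ) :
    ∑ m ∈ range (N + 1), (m : ℝ) * W (tr x K) m ≤
      (2 * ∑ k ∈ Icc 1 K, (k : ℝ) * x k) * PP x K := by
  set y := tr x K with hy
  have hy0 : ∀ k, 0 ≤ y k := tr_nonneg hx0 K
  have h1 : ∑ m ∈ range (N + 1), (m : ℝ) * W y m =
      ∑ i ∈ Icc 1 N, b y i * ∑ m ∈ range (N + 1), (if i ≤ m then W y (m - i) else 0) := by
    simp_rw [Finset.mul_sum]
    rw [Finset.sum_comm]
    refine Finset.sum_congr rfl fun m hm => ?_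
    rw [recurrence]
    have hm' := Finset.mem_range.1 hm
    rw [← Finset.sum_subset (s₁ := Icc 1 m) (s₂ := Icc 1 N)
      (Finset.Icc_subset_Icc (le_refl _) (by omega))]
    · refine Finset.sum_congr rfl fun i hi => ?_
      rw [if_pos (Finset.mem_Icc.1 hi).2]
    · intro i hi hi'
      rw [Finset.mem_Icc] at hi hi'
      rw [if_neg (by omega), mul_zero]
  rw [h1]
  have hP := CK_le hx0 hx1 K N
  calc ∑ i ∈ Icc 1 N, b y i * ∑ m ∈ range (N + 1), (if i ≤ m then W y (m - i) else 0)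
      ≤ ∑ i ∈ Icc 1 N, b y i * PP x K := by
        refine Finset.sum_le_sum fun i hi => mul_le_mul_of_nonneg_left ?_ (b_nonneg hy0 i)
        rw [Finset.mem_Icc] at hi
        rw [shift_sum (W y) i N hi.2]
        exact CK_le hx0 hx1 K (N - i)
    _ = (∑ i ∈ Icc 1 N, b y i) * PP x K := by rw [Finset.sum_mul]
    _ ≤ _ := mul_le_mul_of_nonneg_right (sum_b_le hx0 hx1 K N) (PP_pos hx1 K).le

include hx0 hx1 in
theorem PP_sub_le {K n : ℕ} (hn : 1 ≤ n) :
    PP x K - CK x K n ≤ (2 * ∑ k ∈ Icc 1 K, (k : ℝ) * x k) * PP x K / n := by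
  have hn0 : (0 : ℝ) < n := by exact_mod_cast hn
  have hev : ∀ᶠ N in atTop, CK x K N - CK x K n ≤
      (2 * ∑ k ∈ Icc 1 K, (k : ℝ) * x k) * PP x K / n := by
    filter_upwards [eventually_ge_atTop n] with N hN
    rw [le_div_iff₀ hn0]
    refine le_trans ?_ (moment_le hx0 hx1 K N)
    have e : CK x K N - CK x K n = ∑ m ∈ Ico (n + 1) (N + 1), W (tr x K) m := by
      rw [Finset.sum_Ico_eq_sub _ (by omega)]
      rfl
    rw [e, Finset.sum_mul]
    calc ∑ m ∈ Ico (n + 1) (N + 1), W (tr x K) m * n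
        ≤ ∑ m ∈ Ico (n + 1) (N + 1), (m : ℝ) * W (tr x K) m := by
          refine Finset.sum_le_sum fun m hm => ?_
          rw [mul_comm]
          apply mul_le_mul_of_nonneg_right _ (W_nonneg (tr_nonneg hx0 K) _)
          have := (Finset.mem_Ico.1 hm).1
          exact_mod_cast (by omega : n ≤ m)
      _ ≤ ∑ m ∈ range (N + 1), (m : ℝ) * W (tr x K) m := by
          apply Finset.sum_le_sum_of_subset_of_nonneg
          · rw [Finset.range_eq_Ico]
            exact Finset.Ico_subset_Ico (Nat.zero_le _) (le_refl _)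
          · intro m _ _
            exact mul_nonneg (Nat.cast_nonneg _) (W_nonneg (tr_nonneg hx0 K) _)
  exact le_of_tendsto ((CK_tendsto hx0 hx1 K).sub_const _) hev

theorem CC_eq (n : ℕ) : CC x n = CK x n n := by
  refine Finset.sum_congr rfl fun m hm => ?_
  rw [W_tr_of_le x (by have := Finset.mem_range.1 hm; omega)]

include hx0 hx1 in
theorem CC_le (n : ℕ) : CC x n ≤ PP x n := by
  rw [CC_eq]
  exact CK_le hx0 hx1 n n

include hx0 hx1 in
theorem CC_ge {n : ℕ} (hn : 1 ≤ n) :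
    PP x n * (1 - 2 * ((∑ k ∈ Icc 1 n, (k : ℝ) * x k) / n)) ≤ CC x n := by
  have h := PP_sub_le hx0 hx1 (K := n) hn
  rw [CC_eq]
  have e : (2 * ∑ k ∈ Icc 1 n, (k : ℝ) * x k) * PP x n / n =
      PP x n * (2 * ((∑ k ∈ Icc 1 n, (k : ℝ) * x k) / n)) := by ring
  rw [e] at h
  linarith

end

end V11176.SN
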