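import Mathlib

/-!
# The limit of `n w(n)` from the recurrence
-/

namespace V11176.SN

open Finset Filter Topology

theorem sum_Icc_shift (f : ℕ → ℝ) (n : ℕ) :
    ∑ m ∈ Icc 1 n, f m = ∑ i ∈ range n, f (i + 1) := by
  induction n with
  | zero => simp
  | succ n ih => rw [Finset.sum_Icc_succ_top (by omega), Finset.sum_range_succ, ih]

theorem cesaro_Icc {f : ℕ → ℝ} (hf : Tendsto f atTop (𝓝 0)) :
    Tendsto (fun n : ℕ => (∑ m ∈ Icc 1 n, f m) / n) atTop (𝓝 0) := by
  have h1 : Tendsto (fun i => f (i + 1)) atTop (𝓝 0) := (tendsto_add_atTop_iff_nat 1).2 hf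
  have h2 := h1.cesaro
  refine h2.congr fun n => ?_
  rw [sum_Icc_shift, div_eq_inv_mul]

theorem sum_reflect (w : ℕ → ℝ) (n h : ℕ) :
    ∑ m ∈ Ioc h n, w (n - m) = ∑ j ∈ range (n - h), w j := by
  refine Finset.sum_nbij' (fun m => n - m) (fun j => n - j) ?_ ?_ ?_ ?_ ?_
  · intro m hm
    rw [mem_Ioc] at hm
    rw [mem_range]
    omega
  · intro j hj
    rw [mem_range] at hj
    rw [mem_Ioc]
    omega
  · intro m hm
    rw [mem_Ioc] at hm
    omega
  · intro j hj
    rw [mem_range] at hj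
    omega
  · intro m _
    rfl

theorem log_ratio (a : ℝ) : Tendsto (fun n : ℕ => (Real.log n - a) / Real.log n) atTop (𝓝 1) := by
  have h1 : Tendsto (fun n : ℕ => Real.log (n : ℝ)) atTop atTop :=
    Real.tendsto_log_atTop.comp tendsto_natCast_atTop_atTop
  have h2 : Tendsto (fun n : ℕ => 1 - a * (Real.log (n : ℝ))⁻¹) atTop (𝓝 (1 - a * 0)) :=
    ((tendsto_inv_atTop_zero.comp h1).const_mul a).const_sub 1
  rw [mul_zero, sub_zero] at h2
  refine h2.congr' ?_
  filter_upwards [h1.eventually_gt_atTop 0] with n hn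
  rw [sub_div, div_self hn.ne', div_eq_mul_inv]

section
variable {w bb : ℕ → ℝ} {c : ℝ} (hc : 0 < c) (hw : ∀ n, 0 ≤ w n) (hb : ∀ m, 0 ≤ bb m)
  (hrec : ∀ n : ℕ, (n : ℝ) * w n = ∑ m ∈ Icc 1 n, bb m * w (n - m))
  (hblog : Tendsto (fun m : ℕ => bb m * Real.log m) atTop (𝓝 1))
  (hC : Tendsto (fun n : ℕ => (∑ m ∈ range (n + 1), w m) / Real.log n) atTop (𝓝 c))

include hblog in
theorem bb_tendsto : Tendsto bb atTop (𝓝 0) := by
  have h1 : Tendsto (fun n : ℕ => Real.log (n : ℝ)) atTop atTop :=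
    Real.tendsto_log_atTop.comp tendsto_natCast_atTop_atTop
  have h2 := hblog.mul (tendsto_inv_atTop_zero.comp h1)
  rw [mul_zero] at h2
  refine h2.congr' ?_
  filter_upwards [h1.eventually_gt_atTop 0] with n hn
  simp only [Function.comp_apply]
  field_simp

include hw hb hrec in
/-- the upper bound obtained from the recurrence -/
theorem upper_step {n : ℕ} (hn : 4 ≤ n) {e S : ℝ} (hS : ∀ j : ℕ, j < n → (j : ℝ) * w j ≤ S)
    (he : ∀ m : ℕ, n / 2 < m → bb m ≤ e) :
    (n : ℝ) * w n ≤ 2 * S * ((∑ m ∈ Icc 1 n, bb m) / n) + e * ∑ m ∈ range (n + 1), w m := by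
  have hn0 : (0 : ℝ) < n := by exact_mod_cast (by omega : 0 < n)
  have hS0 : 0 ≤ S := le_trans (by simp) (hS 0 (by omega))
  have he0 : 0 ≤ e := (hb _).trans (he (n / 2 + 1) (by omega))
  have e1 : Icc 1 n = Ioc 0 n := rfl
  rw [hrec n, e1, ← Finset.sum_Ioc_consecutive (fun m => bb m * w (n - m)) (Nat.zero_le (n / 2))
    (Nat.div_le_self n 2)]
  apply add_le_add
  · have h1 : ∀ m ∈ Ioc 0 (n / 2), bb m * w (n - m) ≤ bb m * (2 * S / n) := by
      intro m hm
      rw [mem_Ioc] at hm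
      apply mul_le_mul_of_nonneg_left _ (hb m)
      have h2 := hS (n - m) (by omega)
      have h3 : (n : ℝ) / 2 ≤ ((n - m : ℕ) : ℝ) := by
        rw [Nat.cast_sub (by omega)]
        have : (2 * m : ℝ) ≤ n := by exact_mod_cast (by omega : 2 * m ≤ n)
        linarith
      rw [le_div_iff₀ hn0]
      have h4 : (n : ℝ) / 2 * w (n - m) ≤ ((n - m : ℕ) : ℝ) * w (n - m) :=
        mul_le_mul_of_nonneg_right h3 (hw _)
      linarith
    refine (Finset.sum_le_sum h1).trans ?_
    rw [← Finset.sum_mul]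
    have h5 : ∑ m ∈ Ioc 0 (n / 2), bb m ≤ ∑ m ∈ Ioc 0 n, bb m :=
      Finset.sum_le_sum_of_subset_of_nonneg (Finset.Ioc_subset_Ioc (le_refl _)
        (Nat.div_le_self n 2)) fun m _ _ => hb m
    have h6 : 0 ≤ 2 * S / n := by positivity
    calc (∑ m ∈ Ioc 0 (n / 2), bb m) * (2 * S / n)
        ≤ (∑ m ∈ Ioc 0 n, bb m) * (2 * S / n) := mul_le_mul_of_nonneg_right h5 h6
      _ = _ := by ring
  · have h1 : ∀ m ∈ Ioc (n / 2) n, bb m * w (n - m) ≤ e * w (n - m) := by
      intro m hm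
      exact mul_le_mul_of_nonneg_right (he m (mem_Ioc.1 hm).1) (hw _)
    refine (Finset.sum_le_sum h1).trans ?_
    rw [← Finset.mul_sum, sum_reflect]
    apply mul_le_mul_of_nonneg_left _ he0
    exact Finset.sum_le_sum_of_subset_of_nonneg (Finset.range_mono (by omega)) fun m _ _ => hw m

include hw hb hrec in
/-- the lower bound obtained from the recurrence -/
theorem lower_step {n : ℕ} {e : ℝ} (he : ∀ m : ℕ, n / 2 < m → m ≤ n → e ≤ bb m) :
    e * ∑ m ∈ range (n - n / 2), w m ≤ (n : ℝ) * w n := by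
  have e1 : Icc 1 n = Ioc 0 n := rfl
  rw [hrec n, e1, ← Finset.sum_Ioc_consecutive (fun m => bb m * w (n - m)) (Nat.zero_le (n / 2))
    (Nat.div_le_self n 2), ← sum_reflect, Finset.mul_sum]
  have h1 : ∑ m ∈ Ioc (n / 2) n, e * w (n - m) ≤ ∑ m ∈ Ioc (n / 2) n, bb m * w (n - m) :=
    Finset.sum_le_sum fun m hm =>
      mul_le_mul_of_nonneg_right (he m (mem_Ioc.1 hm).1 (mem_Ioc.1 hm).2) (hw _)
  have h2 : 0 ≤ ∑ m ∈ Ioc 0 (n / 2), bb m * w (n - m) :=
    Finset.sum_nonneg fun m _ => mul_nonneg (hb m) (hw _)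
  linarith

include hblog in
theorem ev_upper {ε : ℝ} (hε : 0 < ε) :
    ∀ᶠ n : ℕ in atTop, ∀ m, n / 2 < m → bb m ≤ (1 + ε) / (Real.log n - Real.log 2) := by
  have h1 := hblog.eventually_lt_const (show (1 : ℝ) < 1 + ε by linarith)
  obtain ⟨M, hM⟩ := eventually_atTop.1 h1
  filter_upwards [eventually_ge_atTop (2 * M + 4)] with n hn m hm
  have hmM : M ≤ m := by omega
  have h2 := hM m hmM
  have hn0 : (0 : ℝ) < n := by exact_mod_cast (by omega : 0 < n)
  have h3 : (n : ℝ) / 2 ≤ m := by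
    have : (n : ℝ) ≤ 2 * m := by exact_mod_cast (by omega : n ≤ 2 * m)
    linarith
  have h4 : Real.log n - Real.log 2 ≤ Real.log m := by
    rw [← Real.log_div hn0.ne' (by norm_num)]
    exact Real.log_le_log (by positivity) h3
  have h5 : 0 < Real.log n - Real.log 2 := by
    rw [← Real.log_div hn0.ne' (by norm_num)]
    apply Real.log_pos
    rw [lt_div_iff₀ (by norm_num)]
    have : (4 : ℝ) ≤ n := by exact_mod_cast (by omega : 4 ≤ n)
    linarith
  rw [le_div_iff₀ h5]
  by_cases hbm : 0 ≤ bb m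
  · exact (mul_le_mul_of_nonneg_left h4 hbm).trans h2.le
  · have : bb m * (Real.log n - Real.log 2) ≤ 0 :=
      mul_nonpos_of_nonpos_of_nonneg (le_of_lt (not_le.1 hbm)) h5.le
    linarith

include hblog in
theorem ev_lower {ε : ℝ} (hε : 0 < ε) (hε1 : ε < 1) :
    ∀ᶠ n : ℕ in atTop, ∀ m, n / 2 < m → m ≤ n → (1 - ε) / Real.log n ≤ bb m := by
  have h1 := hblog.eventually_const_lt (show 1 - ε < (1 : ℝ) by linarith)
  obtain ⟨M, hM⟩ := eventually_atTop.1 h1
  filter_upwards [eventually_ge_atTop (2 * M + 4)] with n hn m hm hmn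
  have hmM : M ≤ m := by omega
  have h2 := hM m hmM
  have hn0 : (0 : ℝ) < n := by exact_mod_cast (by omega : 0 < n)
  have hm1 : (1 : ℝ) < m := by exact_mod_cast (by omega : 1 < m)
  have hlm : 0 < Real.log m := Real.log_pos hm1
  have h4 : Real.log m ≤ Real.log n := Real.log_le_log (by linarith) (by exact_mod_cast hmn)
  have hln : 0 < Real.log n := by linarith
  rw [div_le_iff₀ hln]
  have hbm : 0 ≤ bb m := by
    by_contra hcon
    have : bb m * Real.log m ≤ 0 :=
      mul_nonpos_of_nonpos_of_nonneg (le_of_lt (not_le.1 hcon)) hlm.le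
    linarith
  exact h2.le.trans (mul_le_mul_of_nonneg_left h4 hbm)

include hC in
theorem ratio_upper (a : ℝ) : Tendsto (fun n : ℕ =>
    a / (Real.log n - Real.log 2) * ∑ m ∈ range (n + 1), w m) atTop (𝓝 (a * c)) := by
  have h1 := (hC.div (log_ratio (Real.log 2)) one_ne_zero).const_mul a
  rw [div_one] at h1
  refine h1.congr' ?_
  have hlog : Tendsto (fun n : ℕ => Real.log (n : ℝ)) atTop atTop :=
    Real.tendsto_log_atTop.comp tendsto_natCast_atTop_atTop
  filter_upwards [hlog.eventually_gt_atTop (Real.log 2)] with n hn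
  have hl2 : 0 < Real.log 2 := Real.log_pos (by norm_num)
  have h2 : Real.log n ≠ 0 := by linarith
  have h3 : Real.log n - Real.log 2 ≠ 0 := by linarith
  simp only [Pi.div_apply]
  field_simp

include hC in
theorem ratio_lower (a : ℝ) : Tendsto (fun n : ℕ =>
    a / Real.log n * ∑ m ∈ range (n - n / 2), w m) atTop (𝓝 (a * c)) := by
  have hk : Tendsto (fun n : ℕ => n - n / 2 - 1) atTop atTop := by
    apply tendsto_atTop_atTop.2
    intro b
    exact ⟨2 * b + 2, fun n hn => by omega⟩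
  have h1 := hC.comp hk
  have hlog : Tendsto (fun n : ℕ => Real.log (n : ℝ)) atTop atTop :=
    Real.tendsto_log_atTop.comp tendsto_natCast_atTop_atTop
  have h2 : Tendsto (fun n : ℕ => Real.log ((n - n / 2 - 1 : ℕ) : ℝ) / Real.log n) atTop (𝓝 1) := by
    refine tendsto_of_tendsto_of_tendsto_of_le_of_le' (log_ratio (Real.log 4))
      tendsto_const_nhds ?_ ?_
    · filter_upwards [eventually_ge_atTop 8] with n hn
      have hn0 : (0 : ℝ) < n := by exact_mod_cast (by omega : 0 < n)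
      have hln : 0 < Real.log n := Real.log_pos (by exact_mod_cast (by omega : 1 < n))
      apply div_le_div_of_nonneg_right _ hln.le
      rw [← Real.log_div hn0.ne' (by norm_num)]
      apply Real.log_le_log (by positivity)
      rw [div_le_iff₀ (by norm_num)]
      exact_mod_cast (by omega : n ≤ (n - n / 2 - 1) * 4)
    · filter_upwards [eventually_ge_atTop 8] with n hn
      have hln : 0 < Real.log n := Real.log_pos (by exact_mod_cast (by omega : 1 < n))
      rw [div_le_one hln]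
      apply Real.log_le_log
      · exact_mod_cast (by omega : 0 < n - n / 2 - 1)
      · exact_mod_cast (by omega : n - n / 2 - 1 ≤ n)
  have h3 := (h1.mul h2).const_mul a
  rw [mul_one] at h3
  refine h3.congr' ?_
  filter_upwards [eventually_ge_atTop 8] with n hn
  have hln : 0 < Real.log n := Real.log_pos (by exact_mod_cast (by omega : 1 < n))
  have hlk : 0 < Real.log ((n - n / 2 - 1 : ℕ) : ℝ) :=
    Real.log_pos (by exact_mod_cast (by omega : 1 < n - n / 2 - 1))
  simp only [Function.comp_apply]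
  rw [show n - n / 2 - 1 + 1 = n - n / 2 by omega]
  field_simp

include hc hw hb hrec hblog hC in
theorem bounded : ∃ S : ℝ, ∀ n : ℕ, (n : ℝ) * w n ≤ S := by
  have h1 := ev_upper hblog (ε := 1) one_pos
  have h2 := (cesaro_Icc (bb_tendsto hblog)).eventually_le_const (show (0 : ℝ) < 1 / 4 by norm_num)
  have h3 := (ratio_upper hC (1 + 1)).eventually_le_const
    (show (1 + 1) * c < 3 * c by linarith)
  obtain ⟨n0, hn0⟩ := eventually_atTop.1 (h1.and (h2.and (h3.and (eventually_ge_atTop 4))))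
  refine ⟨6 * c + ∑ j ∈ range n0, (j : ℝ) * w j, fun n => ?_⟩
  set S := 6 * c + ∑ j ∈ range n0, (j : ℝ) * w j with hS
  have hpos : 0 ≤ ∑ j ∈ range n0, (j : ℝ) * w j :=
    Finset.sum_nonneg fun j _ => mul_nonneg (Nat.cast_nonneg _) (hw j)
  induction n using Nat.strong_induction_on with
  | _ n ih =>
    by_cases hn : n < n0
    · have h4 : (n : ℝ) * w n ≤ ∑ j ∈ range n0, (j : ℝ) * w j :=
        Finset.single_le_sum (f := fun j : ℕ => (j : ℝ) * w j)
          (fun j _ => mul_nonneg (Nat.cast_nonneg _) (hw j)) (Finset.mem_range.2 hn)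
      linarith
    · obtain ⟨g1, g2, g3, g4⟩ := hn0 n (by omega)
      have h5 := upper_step hw hb hrec g4 ih g1
      have hS0 : 0 ≤ S := by linarith
      have h6 : 2 * S * ((∑ m ∈ Icc 1 n, bb m) / n) ≤ 2 * S * (1 / 4) :=
        mul_le_mul_of_nonneg_left g2 (by linarith)
      linarith

include hc hw hb hrec hblog hC in
theorem limit_of : Tendsto (fun n : ℕ => (n : ℝ) * w n) atTop (𝓝 c) := by
  obtain ⟨S, hS⟩ := bounded hc hw hb hrec hblog hC
  rw [tendsto_order]
  constructor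
  · intro a ha
    -- lower bound
    obtain ⟨ε, hε0, hε1, hεa⟩ : ∃ ε : ℝ, 0 < ε ∧ ε < 1 ∧ a < (1 - ε) * c := by
      refine ⟨min (1 / 2) ((c - a) / (2 * c)), lt_min (by norm_num) (by
        apply div_pos <;> linarith), lt_of_le_of_lt (min_le_left _ _) (by norm_num), ?_⟩
      have h1 : min (1 / 2) ((c - a) / (2 * c)) ≤ (c - a) / (2 * c) := min_le_right _ _
      have h2 : (c - a) / (2 * c) * c = (c - a) / 2 := by field_simp
      nlinarith
    have h1 := (ratio_lower hC (1 - ε)).eventually_const_lt hεa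
    filter_upwards [h1, ev_lower hblog hε0 hε1] with n g1 g2
    exact lt_of_lt_of_le g1 (lower_step hw hb hrec g2)
  · intro a ha
    obtain ⟨ε, hε0, hεa⟩ : ∃ ε : ℝ, 0 < ε ∧ (1 + ε) * c < a := by
      refine ⟨(a - c) / (2 * c), by apply div_pos <;> linarith, ?_⟩
      have h2 : (a - c) / (2 * c) * c = (a - c) / 2 := by field_simp
      nlinarith
    have h1 : Tendsto (fun n : ℕ => 2 * S * ((∑ m ∈ Icc 1 n, bb m) / n) +
        (1 + ε) / (Real.log n - Real.log 2) * ∑ m ∈ range (n + 1), w m) atTop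
        (𝓝 (2 * S * 0 + (1 + ε) * c)) :=
      ((cesaro_Icc (bb_tendsto hblog)).const_mul _).add (ratio_upper hC (1 + ε))
    rw [mul_zero, zero_add] at h1
    filter_upwards [h1.eventually_lt_const hεa, ev_upper hblog hε0, eventually_ge_atTop 4] with
      n g1 g2 g3
    exact lt_of_le_of_lt (upper_step hw hb hrec g3 (fun j _ => hS j) g2) g1

end

end V11176.SN
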