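import Pool.Agent.V11176.SN.Cum
import Pool.Agent.V11176.SN.Lim
import Pool.Agent.H305R2.Smooth
import Pool.Agent.Helper923.PNT

/-!
# The weights `1 / p_k`
-/

namespace V11176.SN

open Finset Filter Topology

/-- the `k`-th prime, `k ≥ 1` -/
noncomputable def pr (k : ℕ) : ℕ := Nat.nth Nat.Prime (k - 1)

/-- the weight -/
noncomputable def xw (k : ℕ) : ℝ := 1 / (pr k : ℝ)

theorem pr_prime (k : ℕ) : (pr k).Prime := Nat.prime_nth_prime _

theorem pr_ge {k : ℕ} (hk : 1 ≤ k) : k + 1 ≤ pr k := by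
  have := Nat.add_two_le_nth_prime (k - 1)
  unfold pr
  omega

theorem pr_pos (k : ℕ) : (0 : ℝ) < pr k := by exact_mod_cast (pr_prime k).pos

theorem xw_nonneg (k : ℕ) : 0 ≤ xw k := by
  have := pr_pos k
  unfold xw
  positivity

theorem xw_le (k : ℕ) : xw k ≤ 1 / 2 := by
  apply one_div_le_one_div_of_le (by norm_num)
  exact_mod_cast (pr_prime k).two_le

theorem pr_count {N : ℕ} (hN : 1 ≤ N) : Nat.primeCounting (pr N) = N := by
  unfold pr Nat.primeCounting Nat.primeCounting'
  rw [Nat.count_succ, Nat.count_nth_of_infinite Nat.infinite_setOfPred_prime,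
    if_pos (Nat.prime_nth_prime _)]
  omega

theorem pr_tendsto : Tendsto pr atTop atTop := by
  have h1 : Tendsto (Nat.nth Nat.Prime) atTop atTop :=
    (Nat.nth_strictMono Nat.infinite_setOfPred_prime).tendsto_atTop
  exact h1.comp (tendsto_sub_atTop_nat 1)

theorem prR_tendsto : Tendsto (fun k => (pr k : ℝ)) atTop atTop :=
  tendsto_natCast_atTop_atTop.comp pr_tendsto

theorem logpr_tendsto : Tendsto (fun k => Real.log (pr k)) atTop atTop :=
  Real.tendsto_log_atTop.comp prR_tendsto

/-- `k log p_k / p_k → 1` -/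
theorem A1 : Tendsto (fun k : ℕ => (k : ℝ) * Real.log (pr k) / pr k) atTop (𝓝 1) := by
  have h := Pool.Agent.Helper923.PNT.pi_tendsto.comp prR_tendsto
  refine h.congr' ?_
  filter_upwards [eventually_ge_atTop 1] with k hk
  simp only [Function.comp_apply]
  rw [Nat.floor_natCast, pr_count hk]

/-- `log k / log p_k → 1` -/
theorem A2 : Tendsto (fun k : ℕ => Real.log k / Real.log (pr k)) atTop (𝓝 1) := by
  have h1 : Tendsto (fun k : ℕ => Real.log ((k : ℝ) * Real.log (pr k) / pr k)) atTop (𝓝 0) := by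
    have := (Real.continuousAt_log one_ne_zero).tendsto.comp A1
    rwa [Real.log_one] at this
  have h2 : Tendsto (fun k : ℕ => (Real.log (pr k))⁻¹) atTop (𝓝 0) :=
    tendsto_inv_atTop_zero.comp logpr_tendsto
  have h3 : Tendsto (fun k : ℕ => Real.log (Real.log (pr k)) / Real.log (pr k)) atTop (𝓝 0) :=
    (Real.isLittleO_log_id_atTop.tendsto_div_nhds_zero).comp logpr_tendsto
  have h4 := ((h1.mul h2).sub h3).add_const 1
  rw [zero_mul, sub_zero, zero_add] at h4
  refine h4.congr' ?_
  filter_upwards [eventually_ge_atTop 1, logpr_tendsto.eventually_gt_atTop 0] with k hk hl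
  have hk0 : (k : ℝ) ≠ 0 := by exact_mod_cast (by omega : k ≠ 0)
  have hp := (pr_pos k).ne'
  rw [Real.log_div (mul_ne_zero hk0 hl.ne') hp, Real.log_mul hk0 hl.ne']
  field_simp
  ring

/-- `k log k / p_k → 1` -/
theorem A3 : Tendsto (fun k : ℕ => (k : ℝ) * xw k * Real.log k) atTop (𝓝 1) := by
  have h := A1.mul A2
  rw [mul_one] at h
  refine h.congr' ?_
  filter_upwards [logpr_tendsto.eventually_gt_atTop 0] with k hl
  have hp := (pr_pos k).ne'
  unfold xw
  field_simp

theorem prod_eq {n : ℕ} (hn : 1 ≤ n) : PP xw n = Pool.Agent.H305R2.VV (pr n) := by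
  unfold PP Pool.Agent.H305R2.VV
  have e : (Finset.Icc 1 (pr n)).filter Nat.Prime = (Finset.Icc 1 n).image pr := by
    ext p
    simp only [Finset.mem_filter, Finset.mem_Icc, Finset.mem_image]
    constructor
    · rintro ⟨⟨_, h2⟩, h3⟩
      refine ⟨Nat.count Nat.Prime p + 1, ⟨by omega, ?_⟩, ?_⟩
      · have h4 : Nat.count Nat.Prime p ≤ Nat.count Nat.Prime (pr n) := Nat.count_monotone _ h2
        unfold pr at h4
        rw [Nat.count_nth_of_infinite Nat.infinite_setOfPred_prime] at h4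
        omega
      · unfold pr
        rw [Nat.add_sub_cancel]
        exact Nat.nth_count h3
    · rintro ⟨k, ⟨hk1, hk⟩, rfl⟩
      have h1 := pr_prime k
      refine ⟨⟨h1.one_lt.le, ?_⟩, h1⟩
      exact (Nat.nth_monotone Nat.infinite_setOfPred_prime) (by omega)
  rw [e, Finset.prod_image]
  · refine Finset.prod_congr rfl fun k _ => ?_
    rw [xw, one_div]
  · intro a ha b hb hab
    rw [Finset.mem_coe, Finset.mem_Icc] at ha hb
    have := Nat.nth_injective Nat.infinite_setOfPred_prime hab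
    omega

theorem PP_tendsto : Tendsto (fun n : ℕ => PP xw n / Real.log n) atTop
    (𝓝 (Real.exp Real.eulerMascheroniConstant)) := by
  have h := (Pool.Agent.H305R2.VV_tendsto.comp pr_tendsto).div A2 one_ne_zero
  rw [div_one] at h
  refine h.congr' ?_
  filter_upwards [eventually_ge_atTop 2, logpr_tendsto.eventually_gt_atTop 0] with n hn hl
  have hln : 0 < Real.log n := Real.log_pos (by exact_mod_cast (by omega : 1 < n))
  simp only [Pi.div_apply, Function.comp_apply]
  rw [prod_eq (by omega : 1 ≤ n)]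
  field_simp

theorem kx_tendsto : Tendsto (fun k : ℕ => (k : ℝ) * xw k) atTop (𝓝 0) := by
  have hlog : Tendsto (fun n : ℕ => Real.log (n : ℝ)) atTop atTop :=
    Real.tendsto_log_atTop.comp tendsto_natCast_atTop_atTop
  have h := A3.mul (tendsto_inv_atTop_zero.comp hlog)
  rw [mul_zero] at h
  refine h.congr' ?_
  filter_upwards [hlog.eventually_gt_atTop 0] with k hk
  simp only [Function.comp_apply]
  field_simp

theorem CC_tendsto : Tendsto (fun n : ℕ => CC xw n / Real.log n) atTop
    (𝓝 (Real.exp Real.eulerMascheroniConstant)) := by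
  have h1 := cesaro_Icc kx_tendsto
  have h2 : Tendsto (fun n : ℕ => PP xw n / Real.log n *
      (1 - 2 * ((∑ k ∈ Icc 1 n, (k : ℝ) * xw k) / n))) atTop
      (𝓝 (Real.exp Real.eulerMascheroniConstant * (1 - 2 * 0))) :=
    PP_tendsto.mul ((h1.const_mul 2).const_sub 1)
  rw [mul_zero, sub_zero, mul_one] at h2
  refine tendsto_of_tendsto_of_tendsto_of_le_of_le' h2 PP_tendsto ?_ ?_
  · filter_upwards [eventually_ge_atTop 2] with n hn
    have hln : 0 < Real.log n := Real.log_pos (by exact_mod_cast (by omega : 1 < n))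
    have h3 := CC_ge xw_nonneg xw_le (n := n) (by omega)
    rw [div_mul_eq_mul_div]
    exact div_le_div_of_nonneg_right h3 hln.le
  · filter_upwards [eventually_ge_atTop 2] with n hn
    have hln : 0 < Real.log n := Real.log_pos (by exact_mod_cast (by omega : 1 < n))
    exact div_le_div_of_nonneg_right (CC_le xw_nonneg xw_le n) hln.le

/-- the non-principal terms of `b` are small -/
theorem term_le {k j m : ℕ} (hm : 1 ≤ m) (hkj : k * j = m) (hj : 2 ≤ j) :
    (k : ℝ) * xw k ^ j ≤ (if j = 2 then 2 / (m : ℝ) else 0) + 12 / (m : ℝ) ^ 2 := by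
  have hk : 1 ≤ k := by
    by_contra h
    have : k = 0 := by omega
    rw [this, zero_mul] at hkj
    omega
  have hk0 : (0 : ℝ) < k := by exact_mod_cast hk
  have hm0 : (0 : ℝ) < m := by exact_mod_cast hm
  have hx : xw k ≤ 1 / ((k : ℝ) + 1) := by
    apply one_div_le_one_div_of_le (by positivity)
    exact_mod_cast pr_ge hk
  have h1 : (k : ℝ) * xw k ^ j ≤ 1 / ((k : ℝ) + 1) ^ (j - 1) := by
    calc (k : ℝ) * xw k ^ j ≤ ((k : ℝ) + 1) * (1 / ((k : ℝ) + 1)) ^ j := by
          apply mul_le_mul (by linarith) (pow_le_pow_left₀ (xw_nonneg k) hx j)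
            (pow_nonneg (xw_nonneg k) j) (by positivity)
      _ = 1 / ((k : ℝ) + 1) ^ (j - 1) := by
          obtain ⟨i, rfl⟩ : ∃ i, j = i + 1 := ⟨j - 1, by omega⟩
          rw [Nat.add_sub_cancel, one_div_pow, pow_succ]
          field_simp
  refine h1.trans ?_
  have hmkj : (m : ℝ) = k * j := by exact_mod_cast hkj.symm
  split_ifs with h2
  · subst h2
    have h3 : 1 / ((k : ℝ) + 1) ^ (2 - 1) ≤ 2 / (m : ℝ) := by
      rw [show 2 - 1 = 1 from rfl, pow_one, div_le_div_iff₀ (by positivity) hm0, hmkj]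
      push_cast
      linarith
    have : 0 ≤ 12 / (m : ℝ) ^ 2 := by positivity
    linarith
  · rw [zero_add]
    -- `(k + 1)^(j-1) ≥ m² / 12`
    obtain ⟨a, b, hab, ha, hb, hab2⟩ : ∃ a b : ℕ, a + b = j - 1 ∧ 1 ≤ a ∧ 1 ≤ b ∧
        j * j ≤ 12 * (a * b) := by
      refine ⟨(j - 1) / 2, (j - 1) - (j - 1) / 2, by omega, by omega, by omega, ?_⟩
      obtain ⟨i, hi | hi⟩ := Nat.even_or_odd' (j - 1)
      · have hj' : j = 2 * i + 1 := by omega
        have e1 : (j - 1) / 2 = i := by omega
        have e2 : (j - 1) - (j - 1) / 2 = i := by omega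
        have hi1 : 1 ≤ i := by omega
        rw [e2, e1, hj']
        nlinarith
      · have hj' : j = 2 * i + 2 := by omega
        have e1 : (j - 1) / 2 = i := by omega
        have e2 : (j - 1) - (j - 1) / 2 = i + 1 := by omega
        have hi1 : 1 ≤ i := by omega
        rw [e2, e1, hj']
        nlinarith
    have hA : (a : ℝ) * k ≤ ((k : ℝ) + 1) ^ a := by
      have := one_add_mul_le_pow (show (-2 : ℝ) ≤ k by linarith) a
      rw [add_comm (k : ℝ) 1]
      linarith
    have hB : (b : ℝ) * k ≤ ((k : ℝ) + 1) ^ b := by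
      have := one_add_mul_le_pow (show (-2 : ℝ) ≤ k by linarith) b
      rw [add_comm (k : ℝ) 1]
      linarith
    rw [← hab, pow_add, div_le_div_iff₀ (by positivity) (by positivity), one_mul]
    have h4 : (a : ℝ) * k * (b * k) ≤ ((k : ℝ) + 1) ^ a * ((k : ℝ) + 1) ^ b :=
      mul_le_mul hA hB (by positivity) (by positivity)
    have h5 : (j : ℝ) * j ≤ 12 * (a * b) := by exact_mod_cast hab2
    rw [hmkj]
    have h6 : (0 : ℝ) ≤ (k : ℝ) * k := by positivity
    nlinarith [mul_le_mul_of_nonneg_left h5 h6]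

theorem b_bounds {m : ℕ} (hm : 1 ≤ m) :
    (m : ℝ) * xw m ≤ b xw m ∧ b xw m ≤ (m : ℝ) * xw m + 14 / m := by
  have hm0 : (0 : ℝ) < m := by exact_mod_cast hm
  have hmem : (m, 1) ∈ m.divisorsAntidiagonal := by
    rw [Nat.mem_divisorsAntidiagonal]
    exact ⟨mul_one m, by omega⟩
  have e : b xw m = (m : ℝ) * xw m +
      ∑ kj ∈ m.divisorsAntidiagonal.erase (m, 1), (kj.1 : ℝ) * xw kj.1 ^ kj.2 := by
    rw [b, ← Finset.add_sum_erase _ _ hmem]
    simp
  rw [e]
  constructor
  · have : 0 ≤ ∑ kj ∈ m.divisorsAntidiagonal.erase (m, 1), (kj.1 : ℝ) * xw kj.1 ^ kj.2 :=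
      Finset.sum_nonneg fun _ _ => mul_nonneg (Nat.cast_nonneg _) (pow_nonneg (xw_nonneg _) _)
    linarith
  · have h1 : ∀ kj ∈ m.divisorsAntidiagonal.erase (m, 1), (kj.1 : ℝ) * xw kj.1 ^ kj.2 ≤
        (if kj.2 = 2 then 2 / (m : ℝ) else 0) + 12 / (m : ℝ) ^ 2 := by
      rintro ⟨k, j⟩ hkj
      rw [Finset.mem_erase, Nat.mem_divisorsAntidiagonal] at hkj
      obtain ⟨h2, h3, h4⟩ := hkj
      simp only at h2 h3 h4 ⊢
      apply term_le hm h3
      rcases j with _ | _ | j
      · rw [mul_zero] at h3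
        omega
      · exfalso
        apply h2
        simp only [zero_add, mul_one] at h3 ⊢
        rw [h3]
      · omega
    have h2 := Finset.sum_le_sum h1
    rw [Finset.sum_add_distrib] at h2
    have h3 : ∑ kj ∈ m.divisorsAntidiagonal.erase (m, 1),
        (if kj.2 = 2 then 2 / (m : ℝ) else 0) ≤ 2 / m := by
      rw [← Finset.sum_filter]
      have hcard : ((m.divisorsAntidiagonal.erase (m, 1)).filter fun kj => kj.2 = 2).card ≤ 1 := by
        rw [Finset.card_le_one]
        rintro ⟨k, j⟩ h ⟨k', j'⟩ h'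
        rw [Finset.mem_filter, Finset.mem_erase, Nat.mem_divisorsAntidiagonal] at h h'
        simp only at h h'
        obtain ⟨⟨_, g1, _⟩, g2⟩ := h
        obtain ⟨⟨_, g3, _⟩, g4⟩ := h'
        subst g2
        subst g4
        have : k = k' := by omega
        rw [this]
      rw [Finset.sum_const, nsmul_eq_mul]
      have : (((m.divisorsAntidiagonal.erase (m, 1)).filter fun kj => kj.2 = 2).card : ℝ) ≤ 1 := by
        exact_mod_cast hcard
      have h4 : 0 ≤ 2 / (m : ℝ) := by positivity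
      nlinarith
    have h4 : (∑ _kj ∈ m.divisorsAntidiagonal.erase (m, 1), (12 : ℝ) / (m : ℝ) ^ 2) ≤
        (12 : ℝ) / (m : ℝ) := by
      rw [Finset.sum_const, nsmul_eq_mul]
      have hcard : (m.divisorsAntidiagonal.erase (m, 1)).card ≤ m := by
        refine (Finset.card_erase_le).trans ?_
        rw [← Nat.map_div_right_divisors, Finset.card_map]
        exact Nat.card_divisors_le_self m
      have h5 : ((m.divisorsAntidiagonal.erase (m, 1)).card : ℝ) ≤ m := by exact_mod_cast hcard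
      have h6 : 0 ≤ 12 / (m : ℝ) ^ 2 := by positivity
      calc ((m.divisorsAntidiagonal.erase (m, 1)).card : ℝ) * (12 / (m : ℝ) ^ 2)
          ≤ m * (12 / (m : ℝ) ^ 2) := mul_le_mul_of_nonneg_right h5 h6
        _ = 12 / m := by field_simp
    have h5 : (14 : ℝ) / m = 2 / m + 12 / m := by ring
    rw [h5]
    linarith

theorem blog_tendsto : Tendsto (fun m : ℕ => b xw m * Real.log m) atTop (𝓝 1) := by
  have hlog : Tendsto (fun n : ℕ => Real.log (n : ℝ) / n) atTop (𝓝 0) :=
    (Real.isLittleO_log_id_atTop.tendsto_div_nhds_zero).comp tendsto_natCast_atTop_atTop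
  have h1 : Tendsto (fun m : ℕ => (m : ℝ) * xw m * Real.log m + 14 * (Real.log (m : ℝ) / m)) atTop
      (𝓝 (1 + 14 * 0)) := A3.add (hlog.const_mul 14)
  rw [mul_zero, add_zero] at h1
  refine tendsto_of_tendsto_of_tendsto_of_le_of_le' A3 h1 ?_ ?_
  · filter_upwards [eventually_ge_atTop 1] with m hm
    have hl : 0 ≤ Real.log m := Real.log_natCast_nonneg m
    exact mul_le_mul_of_nonneg_right (b_bounds hm).1 hl
  · filter_upwards [eventually_ge_atTop 1] with m hm
    have hl : 0 ≤ Real.log m := Real.log_natCast_nonneg m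
    refine (mul_le_mul_of_nonneg_right (b_bounds hm).2 hl).trans (le_of_eq ?_)
    ring

theorem main : Tendsto (fun n : ℕ => (n : ℝ) * W xw n) atTop
    (𝓝 (Real.exp Real.eulerMascheroniConstant)) :=
  limit_of (Real.exp_pos _) (W_nonneg xw_nonneg) (b_nonneg xw_nonneg) (recurrence xw)
    blog_tendsto CC_tendsto

end V11176.SN
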